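import Pool.Agent.TH684.LT.Gate

/-!
# Computations with few negative answers: definitions
-/

set_option autoImplicit false

namespace Pool.Agent.TH684.FN

open Pool.Agent.NPC Pool.Agent.H251R5.PQ Pool.Agent.TH684.LT

/-- The set of the strings that code an integer vector `v` (a list of integers) for which the
equality gate with the real weights `u` and the value `c` is true: `∑ j, u j * v j = c`. -/
def EqualityGate (u : ℕ → ℝ) (c : ℝ) : Set (List Bool) :=
  {y | ∃ v : List ℤ, y = bits v ∧ ∑ j ∈ Finset.range v.length, u j * (v.getD j 0 : ℝ) = c}

/-- The set `A` is decided by a polynomial-time computation with polynomially many adaptive questions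
to an equality gate, at most `k` of which get the answer no, followed by one threshold gate: the next
question is computed by `q` from the data `z` and the answers obtained so far, and the input vector of
the threshold gate by `f` from `z` and all answers, where `z` codes the input `x`, the bound `n` (in
unary) and a number `a` (advice). The weights `u`, `w` and the thresholds `c`, `θ` of the two gates are
arbitrary real numbers, and may depend on `n` in any way. -/
def FewNegativeAll (k : ℕ) (A : Set (List Bool)) : Prop :=
  ∃ (q : List Bool → List Bool) (f : List Bool → List ℤ) (b : ℕ), PolyTime q ∧
    PolyTime (fun z => bits (f z)) ∧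
    ∀ n : ℕ, ∃ a : ℕ, a ≤ n ^ b + b ∧ ∃ (u : ℕ → ℝ) (c : ℝ) (w : ℕ → ℝ) (θ : ℝ),
      ∀ x : List Bool, x.length ≤ n →
        (adaptive (EqualityGate u c) q (bits (x, (List.replicate n true, a)))
          (n ^ b + b)).count false ≤ k ∧
        (x ∈ A ↔ Gate w θ (f (pairBits (bits (x, (List.replicate n true, a)))
          (adaptive (EqualityGate u c) q (bits (x, (List.replicate n true, a))) (n ^ b + b)))))

/-- The set `A` is decided by a polynomial-time computation with polynomially many adaptive questions
to an equality gate, followed by one threshold gate, such that all inputs in `A`, or all inputs not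
in `A`, get at most `k` answers no. In detail: there are functions `q` and `f`, computable in
polynomial time, such that for every `n` there are a number `a` (advice), at most `n ^ b + b`, real
weights `u`, `w` and real numbers `c`, `θ`, with the following property for all strings `x` of length
at most `n`. Let `z` code `x`, `n` (in unary) and `a`; ask `n ^ b + b` questions, the next question
being computed by `q` from `z` and the answers obtained so far, and the answer being yes if the
question codes an integer vector `v` with `∑ j, u j * v j = c`. Then `x ∈ A` if and only if the
threshold gate with the weights `w` and the threshold `θ` accepts the integer vector computed by `f`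
from `z` and all answers; and at most `k` answers are no, either for all `x ∈ A` or for all `x ∉ A`
(of length at most `n`). The weights and thresholds are arbitrary, and may depend on `n` in any way. -/
def FewNegative (k : ℕ) (A : Set (List Bool)) : Prop :=
  ∃ (q : List Bool → List Bool) (f : List Bool → List ℤ) (b : ℕ), PolyTime q ∧
    PolyTime (fun z => bits (f z)) ∧
    ∀ n : ℕ, ∃ a : ℕ, a ≤ n ^ b + b ∧ ∃ (u : ℕ → ℝ) (c : ℝ) (w : ℕ → ℝ) (θ : ℝ),
      (∀ x : List Bool, x.length ≤ n →
        (x ∈ A ↔ Gate w θ (f (pairBits (bits (x, (List.replicate n true, a)))
          (adaptive (EqualityGate u c) q (bits (x, (List.replicate n true, a)))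
            (n ^ b + b)))))) ∧
      ((∀ x ∈ A, x.length ≤ n → (adaptive (EqualityGate u c) q
          (bits (x, (List.replicate n true, a))) (n ^ b + b)).count false ≤ k) ∨
        ∀ x ∉ A, x.length ≤ n → (adaptive (EqualityGate u c) q
          (bits (x, (List.replicate n true, a))) (n ^ b + b)).count false ≤ k)

/-- `A` reduces to the set `S` by a polynomial-time Turing reduction such that all inputs in `A`, or
all inputs not in `A`, get at most `k` answers no: `r |x|` (adaptive) questions to `S` are asked for
the input `x`, the next question is computed by `q` from `x` and the answers obtained so far, and `g`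
decides from `x` and all answers. -/
def ReducesFewNegative (k : ℕ) (A S : Set (List Bool)) : Prop :=
  ∃ (q g : List Bool → List Bool) (r : Polynomial ℕ), PolyTime q ∧ PolyTime g ∧
    (∀ x : List Bool, x ∈ A ↔ g (pairBits x (adaptive S q x (r.eval x.length))) = [true]) ∧
    ((∀ x ∈ A, (adaptive S q x (r.eval x.length)).count false ≤ k) ∨
      ∀ x ∉ A, (adaptive S q x (r.eval x.length)).count false ≤ k)

end Pool.Agent.TH684.FN
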