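import Pool.Agent.TH684.FN.Vec

/-!
# The dominating stage
-/

set_option autoImplicit false

namespace Pool.Agent.TH684.FN

open Pool.Agent.NPC Pool.Agent.H251R5.PQ Pool.Agent.TH684.LT Finset Filter Topology

theorem dom_real {J : ℕ} (P M : ℕ → ℝ) (h : ℕ → ℕ) (m : ℕ) (N : ℝ) (hN : N ≠ 0)
    (hP : ∀ j < J, 0 ≤ P j) (hc : ∀ j < J, P j = 0 ∨ (M j = N ∧ h j = m) ∨ h j < m)
    (hex : ∃ j < J, 0 < P j ∧ M j = N ∧ h j = m) :
    ∀ᶠ K : ℝ in atTop, (0 < ∑ j ∈ range J, K ^ (h j) * (P j * M j) ↔ 0 < N) := by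
  classical
  set S := (range J).filter fun j => M j = N ∧ h j = m with hS
  set T : ℝ := ∑ j ∈ S, P j with hT
  set B : ℝ := ∑ j ∈ range J, |P j * M j| with hB
  have hT0 : 0 < T := by
    obtain ⟨j, hj, h1, h2⟩ := hex
    refine Finset.sum_pos' (fun i hi => hP i (Finset.mem_range.1 (Finset.mem_filter.1 hi).1))
      ⟨j, Finset.mem_filter.2 ⟨Finset.mem_range.2 hj, h2⟩, h1⟩
  have hB0 : 0 ≤ B := Finset.sum_nonneg fun j _ => abs_nonneg _
  filter_upwards [eventually_ge_atTop 1, eventually_gt_atTop (B / (T * |N|))] with K hK1 hK2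
  have hK0 : 0 < K := by linarith
  have hN0 : 0 < |N| := abs_pos.2 hN
  rw [div_lt_iff₀ (by positivity)] at hK2
  set R : ℝ := ∑ j ∈ (range J).filter (fun j => ¬ (M j = N ∧ h j = m)),
    K ^ (h j) * (P j * M j) with hR
  have hsum : ∑ j ∈ range J, K ^ (h j) * (P j * M j) = K ^ m * (T * N) + R := by
    rw [← Finset.sum_filter_add_sum_filter_not (range J) fun j => M j = N ∧ h j = m, hR, hT,
      Finset.sum_mul, Finset.mul_sum]
    congr 1
    refine Finset.sum_congr rfl fun j hj => ?_
    obtain ⟨_, h1, h2⟩ := Finset.mem_filter.1 hj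
    rw [h1, h2]
  have hRle : |K * R| ≤ K ^ m * B := by
    rw [hR, Finset.mul_sum]
    refine (Finset.abs_sum_le_sum_abs _ _).trans ?_
    rw [hB, Finset.mul_sum]
    refine (Finset.sum_le_sum fun j hj => ?_).trans (Finset.sum_le_sum_of_subset_of_nonneg
      (Finset.filter_subset _ _) fun j _ _ => by positivity)
    obtain ⟨hj1, hj2⟩ := Finset.mem_filter.1 hj
    rcases hc j (Finset.mem_range.1 hj1) with h1 | h1 | h1
    · rw [h1]; simp
    · exact absurd h1 hj2
    · rw [abs_mul, abs_mul, abs_of_pos hK0, abs_of_pos (by positivity), ← mul_assoc, ← pow_succ']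
      exact mul_le_mul_of_nonneg_right (pow_le_pow_right₀ hK1 h1) (abs_nonneg _)
  have hKm : 0 < K ^ m := by positivity
  have h1 : K * ∑ j ∈ range J, K ^ (h j) * (P j * M j) = K ^ m * (K * T * N) + K * R := by
    rw [hsum]; ring
  rw [abs_le] at hRle
  rcases lt_or_gt_of_ne hN with hneg | hpos
  · rw [abs_of_neg hneg] at hK2
    refine ⟨fun hcon => ?_, fun hcon => absurd hcon (not_lt.2 hneg.le)⟩
    have h2 : 0 < K * ∑ j ∈ range J, K ^ (h j) * (P j * M j) := mul_pos hK0 hcon
    rw [h1] at h2
    have h3 : K ^ m * (K * T * N) + K ^ m * B < 0 := by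
      rw [← mul_add]
      refine mul_neg_of_pos_of_neg hKm ?_
      nlinarith
    linarith [hRle.2]
  · rw [abs_of_pos hpos] at hK2
    refine ⟨fun _ => hpos, fun _ => ?_⟩
    have h3 : 0 < K ^ m * (K * T * N) - K ^ m * B := by
      rw [← mul_sub]
      refine mul_pos hKm ?_
      nlinarith
    have h2 : 0 < K * ∑ j ∈ range J, K ^ (h j) * (P j * M j) := by
      rw [h1]
      linarith [hRle.1]
    exact (pos_iff_pos_of_mul_pos h2).1 hK0

/-- The coefficients of the linear form of the guards. -/
def kap (u : ℕ → ℝ) (c : ℝ) : ℕ → ℝ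
  | 0 => 1
  | 1 => -c
  | i + 2 => u i

/-- The coefficients of the linear form of the values. -/
def kap' (w : ℕ → ℝ) (θ : ℝ) : ℕ → ℝ
  | 0 => 0
  | 1 => -θ
  | i + 2 => w i

theorem length_of_mem_stages {r : ℕ} : ∀ {k : ℕ} {l : List ℕ}, l ∈ stages r k → l.length = k
  | 0, l, h => by simp [stages] at h; simp [h]
  | k + 1, l, h => by
    obtain ⟨l', h1, h2⟩ := List.mem_flatMap.1 h
    obtain ⟨i, _, rfl⟩ := List.mem_map.1 h2
    simp [length_of_mem_stages h1]

/-- All vectors have length at most `C`. -/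
def Short (q : List Bool → List Bool) (f : List Bool → List ℤ) (z : List Bool) (r C : ℕ) : Prop :=
  (∀ (s : List Bool) (v : List ℤ), s.length ≤ r → q (pairBits z s) = bits v → v.length ≤ C) ∧
    ∀ s : List Bool, s.length ≤ r → (f (pairBits z s)).length ≤ C

theorem guard_zero {q : List Bool → List Bool} {f : List Bool → List ℤ} {z : List Bool}
    {r C : ℕ} (hs : Short q f z r C) (u : ℕ → ℝ) (c : ℝ) (d : List ℕ) (t : ℕ) :
    lf C (kap u c) (gv q z r d t) = 0 ↔
      d.getD t r < r ∧ q (pairBits z ((patt r d).take (d.getD t r))) ∈ EqualityGate u c := by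
  unfold gv
  by_cases h1 : d.getD t r < r
  · rw [if_pos h1]
    cases hv : unbits (List ℤ) (q (pairBits z ((patt r d).take (d.getD t r)))) with
    | none =>
      simp only [Option.map_none, Option.getD_none]
      rw [lf_one]
      refine ⟨fun h => absurd h one_ne_zero, fun ⟨_, v, h2, _⟩ => ?_⟩
      rw [h2, unbits_bits] at hv
      exact absurd hv (by simp)
    | some v =>
      simp only [Option.map_some, Option.getD_some]
      have h2 := bits_of_unbits hv
      rw [lf_cons C _ v (hs.1 _ v (by simp) h2.symm)]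
      change _ + -c = 0 ↔ _
      rw [← sub_eq_add_neg, sub_eq_zero]
      constructor
      · intro h
        exact ⟨h1, v, h2.symm, h⟩
      · rintro ⟨_, v', h3, h4⟩
        rw [← h2] at h3
        obtain rfl := bits_injective h3
        exact h4
  · rw [if_neg h1, lf_one]
    exact ⟨fun h => absurd h one_ne_zero, fun h => absurd h.1 h1⟩

/-- **The polynomial is right at `z`**, if its parameters are well chosen. -/
theorem pol_right {k : ℕ} {q : List Bool → List Bool} {f : List Bool → List ℤ} {z : List Bool}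
    {r C : ℕ} (hs : Short q f z r C) (u : ℕ → ℝ) (c : ℝ) (w : ℕ → ℝ) (θ : ℝ)
    (hk : (adaptive (EqualityGate u c) q z r).count false ≤ k) :
    ∀ᶠ η : ℝ in 𝓝[>] 0, ∀ᶠ K : ℝ in atTop,
      (0 < MvPolynomial.eval (fun i => ((F0 k q f z r C).getD i 0 : ℝ))
        (pol k r C (kap u c) (kap' w (θ + η)) fun j => K ^ (hv (patt r ((stages r k).getD j [])))) ↔
      Gate w θ (f (pairBits z (adaptive (EqualityGate u c) q z r)))) := by
  set O := EqualityGate u c with hO
  set us := adaptive O q z r with hus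
  have hul : us.length = r := adaptive_length _ _ _ _
  set g : ℝ := ∑ j ∈ range (f (pairBits z us)).length, w j * ((f (pairBits z us)).getD j 0 : ℝ)
    with hg
  have hη : ∀ᶠ η : ℝ in 𝓝[>] 0, g - (θ + η) ≠ 0 ∧ (0 < g - (θ + η) ↔ θ < g) := by
    by_cases h : θ < g
    · have h1 : ∀ᶠ η : ℝ in 𝓝[>] 0, η < g - θ :=
        (eventually_lt_nhds (by linarith : (0 : ℝ) < g - θ)).filter_mono nhdsWithin_le_nhds
      filter_upwards [h1] with η h2
      exact ⟨by linarith [h2] |> ne_of_gt, ⟨fun _ => h, fun _ => by linarith⟩⟩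
    · filter_upwards [self_mem_nhdsWithin] with η h2
      have h2' : 0 < η := h2
      have h3 : g - (θ + η) < 0 := by linarith
      exact ⟨h3.ne, ⟨fun h4 => absurd h4 (not_lt.2 h3.le), fun h4 => absurd h4 h⟩⟩
  filter_upwards [hη] with η hη'
  obtain ⟨hN, hsign⟩ := hη'
  have hGate : Gate w θ (f (pairBits z us)) ↔ θ < g := Iff.rfl
  rw [hGate, ← hsign]
  simp only [pol_eval]
  -- the values
  have hVt : ∀ (d : List ℕ) (t : ℕ), t < k → V q f z r k d t = gv q z r d t := by
    intro d t ht
    unfold V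
    rw [if_pos ht]
  have hVk : ∀ d : List ℕ, V q f z r k d k = 0 :: 1 :: f (pairBits z (patt r d)) := by
    intro d
    unfold V
    rw [if_neg (lt_irrefl _)]
  refine dom_real (fun j => ∏ t ∈ range k, lf C (kap u c)
    (V q f z r k ((stages r k).getD j []) t) ^ 2)
    (fun j => lf C (kap' w (θ + η)) (V q f z r k ((stages r k).getD j []) k))
    (fun j => hv (patt r ((stages r k).getD j []))) (hv us) (g - (θ + η)) hN
    (fun j _ => Finset.prod_nonneg fun t _ => sq_nonneg _) ?_ ?_
  · intro j hj
    set d := (stages r k).getD j [] with hd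
    have hdm : d ∈ stages r k := by
      rw [hd, List.getD_eq_getElem _ _ hj]
      exact List.getElem_mem _
    by_cases h0 : (∏ t ∈ range k, lf C (kap u c) (V q f z r k d t) ^ 2) = 0
    · exact Or.inl h0
    · right
      have h1 : ∀ t < k, lf C (kap u c) (gv q z r d t) ≠ 0 := by
        intro t ht hcon
        refine h0 (Finset.prod_eq_zero (Finset.mem_range.2 ht) ?_)
        rw [hVt d t ht, hcon]
        simp
      have hpc : ∀ i ∈ d, i < r → q (pairBits z ((patt r d).take i)) ∉ O := by
        intro i hi hir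
        obtain ⟨t, ht, hti⟩ := List.getElem_of_mem hi
        have ht' : t < k := by rw [← length_of_mem_stages hdm]; exact ht
        have h2 : d.getD t r = i := by rw [List.getD_eq_getElem _ _ ht, hti]
        have h3 := h1 t ht'
        rw [Ne, guard_zero hs, h2] at h3
        exact fun h4 => h3 ⟨hir, h4⟩
      rcases patt_cases O q z r d hpc with h2 | h2
      · left
        refine ⟨?_, by simp only [h2, ← hus]⟩
        simp only [hVk, h2, ← hus]
        rw [lf_cons C _ _ (hs.2 us (by rw [hul]))]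
        change ∑ j ∈ range _, w j * _ + -(θ + η) = _
        rw [← sub_eq_add_neg]
      · exact Or.inr h2
  · obtain ⟨d, hd, hpd⟩ := patt_surj us hul hk
    obtain ⟨j, hj, hjd⟩ := List.getElem_of_mem hd
    have hgd : (stages r k).getD j [] = d := by rw [List.getD_eq_getElem _ _ hj, hjd]
    refine ⟨j, hj, ?_, ?_, ?_⟩
    · simp only [hgd]
      refine Finset.prod_pos fun t ht => ?_
      have ht' := Finset.mem_range.1 ht
      rw [hVt d t ht']
      refine sq_pos_of_ne_zero fun hcon => ?_
      rw [guard_zero hs, hpd] at hcon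
      obtain ⟨hlt, hmem⟩ := hcon
      have htl : t < d.length := by
        rw [length_of_mem_stages hd]
        exact ht'
      have hdm : d.getD t r ∈ d := by
        rw [List.getD_eq_getElem _ _ htl]
        exact List.getElem_mem _
      have h1 := patt_getElem? d hlt
      rw [hpd, hus, adaptive_getElem? _ _ _ hlt] at h1
      rw [hus, adaptive_take _ _ _ hlt.le] at hmem
      simp only [Option.some.injEq, decide_eq_decide] at h1
      exact (h1.1 hmem) hdm
    · simp only [hgd, hVk, hpd]
      rw [lf_cons C _ _ (hs.2 us (by rw [hul]))]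
      change ∑ j ∈ range _, w j * _ + -(θ + η) = _
      rw [← sub_eq_add_neg]
    · simp only [hgd, hpd]

end Pool.Agent.TH684.FN
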