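import Pool.Agent.TH684.FN.PolyF

/-!
# Exclusion from features that use the bound in unary
-/

set_option autoImplicit false

namespace Pool.Agent.TH684.FN

open Pool.Agent.NPC Pool.Agent.H251R5.PQ Pool.Agent.TH684.LT Pool.Agent.H579R2.Spt
open Pool.Agent.TH684.EX (Exc poly_of_polyTime p_eq_np_of_exc)

theorem sz_rep (n : ℕ) : sz (List.replicate n ()) = 2 * n + 1 := by
  induction n with
  | zero => simp
  | succ n ih => rw [List.replicate_succ, sz_list_cons, ih, sz_unit]; omega

/-- If threshold gates with arbitrary weights decide `A` from vectors computed with the bound in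
unary, then one vector of answers can be excluded. -/
theorem exc_of_feat {A : Set (List Bool)} (Φ : List Bool × (ℕ × List Unit) → List ℤ) (hΦ : Poly Φ)
    (c : ℕ) (h : ∀ n : ℕ, ∃ a : ℕ, a ≤ n ^ c + c ∧ ∃ (w : ℕ → ℝ) (θ : ℝ), ∀ y : List Bool,
      y.length ≤ n → (y ∈ A ↔ Gate w θ (Φ (y, (a, List.replicate n ()))))) :
    ∃ (b : ℕ) (X : List (List Bool) × ℕ → ℕ), Poly X ∧
      Exc A (fun q : ℕ × (ℕ × ℕ) => par q.2.1 q.2.2) b X := by
  classical
  set FF : List (List Bool) × ℕ → List (List ℤ) :=
    fun q => q.1.map fun y => Φ (y, (q.2 % q.1.length,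
      List.replicate (min (q.2 / q.1.length) q.1.length) ())) with hFF
  have hFFp : Poly FF := by
    have e1 : Poly (fun q : (List (List Bool) × ℕ) × List Bool => q.1) := NPC.Poly.fst NPC.Poly.id
    have e2 : Poly (fun q : (List (List Bool) × ℕ) × List Bool => q.2) := NPC.Poly.snd NPC.Poly.id
    have g1 : UPoly (fun q : List (List Bool) × ℕ => q.1.length) :=
      UPoly.length (NPC.Poly.fst NPC.Poly.id)
    have g2 : Poly (fun q : List (List Bool) × ℕ => q.2) := NPC.Poly.snd NPC.Poly.id
    have g3 : Poly (fun q : List (List Bool) × ℕ => q.2 % q.1.length) := NPC.Poly.mod g2 g1.toPoly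
    have g4 : UPoly (fun q : List (List Bool) × ℕ => min (q.2 / q.1.length) q.1.length) :=
      UPoly.of_le (NPC.Poly.min (NPC.Poly.div g2 g1.toPoly) g1.toPoly) g1 fun q => min_le_right _ _
    exact NPC.Poly.map (l := fun q : List (List Bool) × ℕ => q.1)
      (F := fun q y => Φ (y, (q.2 % q.1.length,
        List.replicate (min (q.2 / q.1.length) q.1.length) ()))) (NPC.Poly.fst NPC.Poly.id)
      (hΦ.comp (NPC.Poly.pair e2 (NPC.Poly.pair (g3.comp e1) (g4.comp e1))))
  obtain ⟨p, hp⟩ := hΦ.sz_le
  -- the bound on the lengths of the vectors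
  set R : Polynomial ℕ := Polynomial.C 8 * Polynomial.X + Polynomial.C 4 *
    (Polynomial.X ^ c + Polynomial.C c) + 5 with hR
  set D : Polynomial ℕ := p.comp R with hD
  have hlen : ∀ n a : ℕ, a ≤ n ^ c + c → ∀ y : List Bool, y.length ≤ n →
      (Φ (y, (a, List.replicate n ()))).length ≤ D.eval n := by
    intro n a ha y hy
    have h1 := hp (y, (a, List.replicate n ()))
    have h2 := length_lt_sz (Φ (y, (a, List.replicate n ())))
    have h3 : sz (y, (a, List.replicate n ())) ≤ R.eval n := by
      rw [sz_pair, sz_pair, sz_rep, hR]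
      have h4 := sz_listBool_le y
      have h5 := sz_nat_le a
      have h6 := NPC.Poly.size_le_self a
      simp only [Polynomial.eval_add, Polynomial.eval_mul, Polynomial.eval_C, Polynomial.eval_X,
        Polynomial.eval_pow, Polynomial.eval_ofNat]
      omega
    have h4 := eval_mono p h3
    rw [hD, Polynomial.eval_comp]
    omega
  set Mp : Polynomial ℕ := Polynomial.C 17 * (D + 1) ^ 2 + Polynomial.X ^ c + Polynomial.C c +
    Polynomial.X + 1 with hMp
  obtain ⟨b0, hb0⟩ := exists_pow_add_bound (Polynomial.C 2 * Mp + Mp * Mp)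
  refine ⟨b0, fun q => exclF (FF q), exclF_poly hFFp, fun n => ?_⟩
  obtain ⟨a, ha, w, θ, hw⟩ := h n
  have hb := hb0 n
  simp only [Polynomial.eval_add, Polynomial.eval_mul, Polynomial.eval_C] at hb
  have hMpe : Mp.eval n = 17 * (D.eval n + 1) ^ 2 + n ^ c + c + n + 1 := by
    rw [hMp]
    simp
  set m := Mp.eval n with hm
  have hnm : n < m := by omega
  have ham : a < m := by omega
  have ham' : a + m * n ≤ m * m := by
    calc a + m * n ≤ m + m * n := by omega
      _ = m * (n + 1) := by ring
      _ ≤ m * m := Nat.mul_le_mul_left _ hnm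
  refine ⟨m, a + m * n, by omega, by omega, fun qs hqs hqlen => ?_⟩
  have hdec1 : (a + m * n) % m = a := by rw [Nat.add_mul_mod_self_left, Nat.mod_eq_of_lt ham]
  have hdec2 : (a + m * n) / m = n := by
    rw [Nat.add_mul_div_left _ _ (by omega), Nat.div_eq_of_lt ham, zero_add]
  have hFFe : FF (qs, a + m * n) = qs.map fun y => Φ (y, (a, List.replicate n ())) := by
    rw [hFF]
    simp only [hqs, hdec1, hdec2, min_eq_left hnm.le]
  have hFlen : (FF (qs, a + m * n)).length = m := by rw [hFFe]; simpa using hqs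
  have hdim : dimF (FF (qs, a + m * n)) ≤ D.eval n + 1 := by
    refine dimF_le _ fun r hr => ?_
    rw [hFFe] at hr
    obtain ⟨y, hy, rfl⟩ := List.mem_map.1 hr
    exact hlen n a ha y (hqlen y hy)
  have hbig : 16 * dimF (FF (qs, a + m * n)) ^ 2 < (FF (qs, a + m * n)).length := by
    rw [hFlen]
    have h1 : dimF (FF (qs, a + m * n)) ^ 2 ≤ (D.eval n + 1) ^ 2 := Nat.pow_le_pow_left hdim 2
    have h2 : 0 < (D.eval n + 1) ^ 2 := by positivity
    omega
  obtain ⟨h1, h2⟩ := exclF_spec (FF (qs, a + m * n)) hbig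
  refine ⟨?_, fun hcon => h2 w θ fun t ht => ?_⟩
  · have h3 : 2 ^ (FF (qs, a + m * n)).length.size ≤ 2 * m := by
      rw [hFlen]
      have h4 : 0 < m := by omega
      have h5 := Nat.size_pos.2 h4
      have h6 : 2 ^ (m.size - 1) ≤ m := by
        rw [← Nat.lt_size]
        omega
      have h7 : 2 ^ m.size = 2 * 2 ^ (m.size - 1) := by
        rw [← pow_succ']
        congr 1
        omega
      omega
    change exclF (FF (qs, a + m * n)) ≤ _
    omega
  · rw [hFlen] at ht
    have ht' : t < qs.length := by rw [hqs]; exact ht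
    have h3 : (FF (qs, a + m * n)).getD t [] = Φ (qs[t], (a, List.replicate n ())) := by
      rw [hFFe, List.getD_eq_getElem _ _ (by simpa using ht')]
      simp
    rw [h3]
    have h4 := hw qs[t] (hqlen _ (List.getElem_mem ht'))
    unfold Gate at h4
    rw [← h4]
    have h5 : (answers A qs)[t]? = ((List.range m).map fun i =>
        par (exclF (FF (qs, a + m * n))) i)[t]? := by rw [hcon]
    unfold answers at h5
    rw [List.getElem?_map, List.getElem?_map, List.getElem?_eq_getElem ht',
      List.getElem?_range ht] at h5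
    simp only [Option.map_some, Option.some.injEq] at h5
    rw [← h5, decide_eq_true_iff]

/-- Then `P = NP`, if `A` is `NP`-hard. -/
theorem p_eq_np_of_feat {A : Set (List Bool)} (hA : NPHard A)
    (Φ : List Bool × (ℕ × List Unit) → List ℤ) (hΦ : Poly Φ)
    (c : ℕ) (h : ∀ n : ℕ, ∃ a : ℕ, a ≤ n ^ c + c ∧ ∃ (w : ℕ → ℝ) (θ : ℝ), ∀ y : List Bool,
      y.length ≤ n → (y ∈ A ↔ Gate w θ (Φ (y, (a, List.replicate n ()))))) :
    ∀ L : Set (List Bool), InNP L → InP L := by
  obtain ⟨b, X, hX, hex⟩ := exc_of_feat Φ hΦ c h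
  exact p_eq_np_of_exc hA (par_poly (NPC.Poly.fst (NPC.Poly.snd NPC.Poly.id))
    (NPC.Poly.snd (NPC.Poly.snd NPC.Poly.id))) hX hex

end Pool.Agent.TH684.FN
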