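import Pool.Agent.TH684.FN.Feat

/-!
# `NP`-hard sets decided with few negative answers of an equality gate
-/

set_option autoImplicit false

namespace Pool.Agent.TH684.FN

open Pool.Agent.NPC Pool.Agent.H251R5.PQ Pool.Agent.TH684.LT Pool.Agent.H579R2.Spt Filter Topology
open Pool.Agent.TH684.EX (Exc poly_of_polyTime p_eq_np_of_exc)

theorem pairBits_length (x w : List Bool) : (pairBits x w).length = 2 * x.length + 1 + w.length := by
  unfold pairBits
  rw [List.length_append, List.length_flatMap]
  simp
  omega

/-- The data of an input. -/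
def zz (y : List Bool) (a : ℕ) (ρ : List Unit) : List Bool := bits (y, (ρ.map fun _ => true, a))

theorem zz_rep (y : List Bool) (a n : ℕ) :
    zz y a (List.replicate n ()) = bits (y, (List.replicate n true, a)) := by
  unfold zz
  rw [List.map_replicate]

theorem zz_poly {α : Type} [TEnc α] {y : α → List Bool} {a : α → ℕ} {ρ : α → List Unit}
    (hy : Poly y) (ha : Poly a) (hρ : Poly ρ) : Poly (fun t => zz (y t) (a t) (ρ t)) := by
  unfold zz
  exact bits_poly.comp (NPC.Poly.pair hy (NPC.Poly.pair
    (NPC.Poly.map (l := ρ) (F := fun _ _ => true) hρ (NPC.Poly.const true)) ha))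

/-- **Few negative answers of an equality gate, then a threshold gate.** If some `NP`-hard set is
decided in this way, then `P = NP`. -/
theorem p_eq_np_of_fewNegativeAll {A : Set (List Bool)} {k : ℕ} (hA : NPHard A)
    (h : FewNegativeAll k A) : ∀ L : Set (List Bool), InNP L → InP L := by
  obtain ⟨q, f, b, hq, hf, hgate⟩ := h
  have hqp : Poly q := H622R2.poly_of_polyTime hq
  have hfp : Poly f := poly_of_polyTime hf
  obtain ⟨p1, hp1⟩ := hqp.sz_le
  obtain ⟨p2, hp2⟩ := hfp.sz_le
  set rp : Polynomial ℕ := Polynomial.X ^ b + Polynomial.C b with hrp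
  have hre : ∀ n, rp.eval n = n ^ b + b := by intro n; rw [hrp]; simp
  set Lp : Polynomial ℕ := Polynomial.C 4 * (Polynomial.C 2 * (Polynomial.C 8 * Polynomial.X +
    Polynomial.C 4 * rp + 5) + 1 + rp) + 1 with hLp
  set Cp : Polynomial ℕ := (p1 + p2).comp Lp with hCp
  -- the vectors are short
  have hzlen : ∀ n a : ℕ, a ≤ n ^ b + b → ∀ y : List Bool, y.length ≤ n → ∀ s : List Bool,
      s.length ≤ n ^ b + b → sz (pairBits (bits (y, (List.replicate n true, a))) s) ≤
        Lp.eval n := by
    intro n a ha y hy s hs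
    have h1 := sz_listBool_le (pairBits (bits (y, (List.replicate n true, a))) s)
    rw [pairBits_length, bits_length, sz_pair, sz_pair] at h1
    have h4 := sz_listBool_le y
    have h5 := sz_nat_le a
    have h6 := NPC.Poly.size_le_self a
    have h7 := sz_listBool_le (List.replicate n true)
    rw [List.length_replicate] at h7
    rw [hLp]
    simp only [Polynomial.eval_add, Polynomial.eval_mul, Polynomial.eval_C, Polynomial.eval_X,
      Polynomial.eval_ofNat, Polynomial.eval_one, hre]
    omega
  have hshort : ∀ n a : ℕ, a ≤ n ^ b + b → ∀ y : List Bool, y.length ≤ n →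
      Short q f (bits (y, (List.replicate n true, a))) (n ^ b + b) (Cp.eval n) := by
    intro n a ha y hy
    refine ⟨fun s v hs hv => ?_, fun s hs => ?_⟩
    · have h1 := hp1 (pairBits (bits (y, (List.replicate n true, a))) s)
      have h2 := eval_mono p1 (hzlen n a ha y hy s hs)
      have h3 := length_lt_sz v
      have h4 : (bits v).length = sz v := rfl
      rw [hv] at h1
      have h5 := length_lt_sz (bits v)
      rw [hCp, Polynomial.eval_comp, Polynomial.eval_add]
      omega
    · have h1 := hp2 (pairBits (bits (y, (List.replicate n true, a))) s)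
      have h2 := eval_mono p2 (hzlen n a ha y hy s hs)
      have h3 := length_lt_sz (f (pairBits (bits (y, (List.replicate n true, a))) s))
      rw [hCp, Polynomial.eval_comp, Polynomial.eval_add]
      omega
  -- the features
  have e1 : Poly (fun t : List Bool × (ℕ × List Unit) => t.1) := NPC.Poly.fst NPC.Poly.id
  have e2 : Poly (fun t : List Bool × (ℕ × List Unit) => t.2.1) :=
    NPC.Poly.fst (NPC.Poly.snd NPC.Poly.id)
  have e3 : Poly (fun t : List Bool × (ℕ × List Unit) => t.2.2) :=
    NPC.Poly.snd (NPC.Poly.snd NPC.Poly.id)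
  have hΦ : Poly (fun t : List Bool × (ℕ × List Unit) => ftv (2 * k + 1)
      (F0 k q f (zz t.1 t.2.1 t.2.2) (rp.eval t.2.2.length) (Cp.eval t.2.2.length))) :=
    ftv_poly _ (F0_poly k hqp hfp (zz_poly e1 e2 e3) ((UPoly.length e3).eval rp)
      ((UPoly.length e3).eval Cp))
  refine p_eq_np_of_feat hA _ hΦ b fun n => ?_
  obtain ⟨a, ha, u, c, w, θ, hdec⟩ := hgate n
  have hfin : {y : List Bool | y.length ≤ n}.Finite := List.finite_length_le Bool n
  have hη : ∀ᶠ η : ℝ in 𝓝[>] 0, ∀ y ∈ {y : List Bool | y.length ≤ n}, ∀ᶠ K : ℝ in atTop,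
      (0 < MvPolynomial.eval (fun i => ((F0 k q f (bits (y, (List.replicate n true, a)))
        (n ^ b + b) (Cp.eval n)).getD i 0 : ℝ))
        (pol k (n ^ b + b) (Cp.eval n) (kap u c) (kap' w (θ + η))
          fun j => K ^ (hv (patt (n ^ b + b) ((stages (n ^ b + b) k).getD j [])))) ↔
      Gate w θ (f (pairBits (bits (y, (List.replicate n true, a))) (adaptive (EqualityGate u c) q
        (bits (y, (List.replicate n true, a))) (n ^ b + b))))) := by
    refine (Filter.eventually_all_finite hfin).2 fun y hy => ?_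
    exact pol_right (hshort n a ha y hy) u c w θ (hdec y hy).1
  obtain ⟨η, hη⟩ := hη.exists
  obtain ⟨K, hK⟩ := ((Filter.eventually_all_finite hfin).2 hη).exists
  obtain ⟨W, hW⟩ := eval_eq_linear (2 * k + 1) (pol k (n ^ b + b) (Cp.eval n) (kap u c)
    (kap' w (θ + η)) fun j => K ^ (hv (patt (n ^ b + b) ((stages (n ^ b + b) k).getD j []))))
    ((pol_degree _ _ _ _ _ _).trans Nat.lt_two_pow_self.le)
  refine ⟨a, ha, W, 0, fun y hy => ?_⟩
  rw [(hdec y hy).2, ← hK y hy, hW]
  simp only [zz_rep, List.length_replicate, hre]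
  rfl

end Pool.Agent.TH684.FN
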