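import Pool.Agent.TH684.FN.Dom
import Pool.Agent.H579R2.Spt.Main2

/-!
# The vectors are computable in polynomial time
-/

set_option autoImplicit false

namespace Pool.Agent.TH684.FN

open Pool.Agent.NPC Pool.Agent.H251R5.PQ Pool.Agent.TH684.LT Pool.Agent.H579R2.Spt

variable {α : Type} [TEnc α]

theorem stages_poly {r : α → ℕ} (hr : UPoly r) (k : ℕ) : Poly (fun a => stages (r a) k) := by
  induction k with
  | zero => exact NPC.Poly.const _
  | succ k ih =>
    unfold stages
    refine NPC.Poly.flatMap (l := fun a => stages (r a) k)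
      (F := fun a l => (List.range (r a + 1)).map fun i => i :: l) ih ?_
    have e1 : Poly (fun q : α × List ℕ => q.1) := NPC.Poly.fst NPC.Poly.id
    refine NPC.Poly.map (l := fun q : α × List ℕ => List.range (r q.1 + 1))
      (F := fun q i => i :: q.2) ((hr.add (UPoly.const 1)).comp e1).range ?_
    exact NPC.Poly.cons (NPC.Poly.snd NPC.Poly.id) (NPC.Poly.snd (NPC.Poly.fst NPC.Poly.id))

theorem patt_poly {r : α → ℕ} {d : α → List ℕ} (hr : UPoly r) (hd : Poly d) :
    Poly (fun a => patt (r a) (d a)) := by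
  unfold patt
  refine (NPC.Poly.map (l := fun a => List.range (r a)) (F := fun a i => !(decide (i ∈ d a)))
    hr.range (NPC.Poly.not (NPC.Poly.decide_mem (NPC.Poly.snd NPC.Poly.id)
      (hd.comp (NPC.Poly.fst NPC.Poly.id))))).congr fun a => ?_
  refine List.map_congr_left fun i _ => ?_
  simp

theorem gv_poly {q : List Bool → List Bool} (hq : Poly q) {z : α → List Bool} {r t : α → ℕ}
    {d : α → List ℕ} (hz : Poly z) (hr : UPoly r) (hd : Poly d) (ht : Poly t) :
    Poly (fun a => gv q (z a) (r a) (d a) (t a)) := by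
  unfold gv
  have hrp := hr.toPoly
  have h1 : Poly (fun a => (d a).getD (t a) (r a)) := NPC.Poly.getD hd ht hrp
  refine NPC.Poly.ite (NPC.Poly.decide_lt h1 hrp) ?_ (NPC.Poly.const _)
  refine NPC.Poly.optGetD ?_ (NPC.Poly.const _)
  refine NPC.Poly.optMap (o := fun a => unbits (List ℤ) (q (pairBits (z a)
    ((patt (r a) (d a)).take ((d a).getD (t a) (r a)))))) (f := fun _ v => 0 :: 1 :: v) ?_ ?_
  · exact poly_unbits.comp (hq.comp (H622R2.poly_pairBits hz (take_poly' (patt_poly hr hd) h1)))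
  · exact NPC.Poly.cons (NPC.Poly.const 0) (NPC.Poly.cons (NPC.Poly.const 1)
      (NPC.Poly.snd NPC.Poly.id))

theorem V_poly {q : List Bool → List Bool} (hq : Poly q) {f : List Bool → List ℤ} (hf : Poly f)
    {z : α → List Bool} {r t : α → ℕ} (k : ℕ) {d : α → List ℕ} (hz : Poly z) (hr : UPoly r)
    (hd : Poly d) (ht : Poly t) : Poly (fun a => V q f (z a) (r a) k (d a) (t a)) := by
  unfold V
  refine NPC.Poly.ite (NPC.Poly.decide_lt ht (NPC.Poly.const k)) (gv_poly hq hz hr hd ht) ?_
  exact NPC.Poly.cons (NPC.Poly.const 0) (NPC.Poly.cons (NPC.Poly.const 1)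
    (hf.comp (H622R2.poly_pairBits hz (patt_poly hr hd))))

theorem F0_poly (k : ℕ) {q : List Bool → List Bool} (hq : Poly q) {f : List Bool → List ℤ}
    (hf : Poly f) {z : α → List Bool} {r C : α → ℕ} (hz : Poly z) (hr : UPoly r) (hC : UPoly C) :
    Poly (fun a => F0 k q f (z a) (r a) (C a)) := by
  unfold F0
  have hst := stages_poly hr k
  have hC2 : UPoly (fun a => C a + 2) := hC.add (UPoly.const 2)
  have hN : UPoly (fun a => (stages (r a) k).length * (k + 1) * (C a + 2)) :=
    ((UPoly.length hst).mul (UPoly.const (k + 1))).mul hC2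
  have e1 : Poly (fun p : α × ℕ => p.1) := NPC.Poly.fst NPC.Poly.id
  have e2 : Poly (fun p : α × ℕ => p.2) := NPC.Poly.snd NPC.Poly.id
  have hCp : Poly (fun p : α × ℕ => C p.1 + 2) := hC2.toPoly.comp e1
  have hdiv : Poly (fun p : α × ℕ => p.2 / (C p.1 + 2)) := NPC.Poly.div e2 hCp
  have hk : Poly (fun _ : α × ℕ => k + 1) := NPC.Poly.const _
  refine NPC.Poly.map (l := fun a => List.range ((stages (r a) k).length * (k + 1) * (C a + 2)))
    (F := fun a i => (V q f (z a) (r a) k ((stages (r a) k).getD (i / (C a + 2) / (k + 1)) [])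
      (i / (C a + 2) % (k + 1))).getD (i % (C a + 2)) 0) hN.range ?_
  refine NPC.Poly.getD (V_poly hq hf k (hz.comp e1) (hr.comp e1)
    (NPC.Poly.getD (hst.comp e1) (NPC.Poly.div hdiv hk) (NPC.Poly.const []))
    (NPC.Poly.mod hdiv hk)) (NPC.Poly.mod e2 hCp) (NPC.Poly.const 0)

end Pool.Agent.TH684.FN
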