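import Pool.Agent.TH684.FN.Stop

/-!
# Sparse oracles with few negative answers
-/

set_option autoImplicit false

namespace Pool.Agent.TH684.FN

open Pool.Agent.NPC Pool.Agent.H251R5.PQ Pool.Agent.TH684.LT Pool.Agent.H579R2.Spt
open Pool.Agent.TH684.EX (Exc poly_of_polyTime p_eq_np_of_exc)

/-- The number that codes a string. -/
def num (y : List Bool) : ℕ := valB (y ++ [true])

theorem num_injective : Function.Injective num := by
  intro y y' h
  unfold num at h
  have hb : ∀ l : List Bool, (valB (l ++ [true])).bits = l ++ [true] := by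
    intro l
    induction l with
    | nil => simp
    | cons b l ih =>
      have hpos : valB (l ++ [true]) ≠ 0 := by
        rw [valB_append]
        simp
      rw [List.cons_append, valB_cons]
      have h1 : (if b = true then 1 else 0) + 2 * valB (l ++ [true]) =
          Nat.bit b (valB (l ++ [true])) := by
        cases b <;> simp [Nat.bit]
        omega
      rw [h1, Nat.bits_append_bit _ _ (fun h0 => absurd h0 hpos), ih]
  have h2 := congrArg Nat.bits h
  rw [hb, hb] at h2
  exact List.append_cancel_right h2

/-- The powers of the number of a string. -/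
def pw (E : ℕ) (y : List Bool) : List ℤ := (List.range (E + 1)).map fun e => (num y : ℤ) ^ e

theorem pw_poly {α : Type} [TEnc α] {E : α → ℕ} {y : α → List Bool} (hE : UPoly E) (hy : Poly y) :
    Poly (fun t => pw (E t) (y t)) := by
  unfold pw num
  have hE1 : UPoly (fun t => E t + 1) := hE.add (UPoly.const 1)
  have hEp := hE.toPoly
  -- the exponent is bounded by `E t`
  have hn : Poly (fun t => ((valB (y t ++ [true]) : ℕ) : ℤ)) :=
    NPC.Poly.natCast (NPC.Poly.valBits (NPC.Poly.append hy (NPC.Poly.const [true])))
  have e1 : Poly (fun q : α × ℕ => q.1) := NPC.Poly.fst NPC.Poly.id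
  have e2 : Poly (fun q : α × ℕ => q.2) := NPC.Poly.snd NPC.Poly.id
  have hm : UPoly (fun q : α × ℕ => min q.2 (E q.1)) :=
    UPoly.of_le (NPC.Poly.min e2 (hEp.comp e1)) (hE.comp e1) fun q => min_le_right _ _
  refine (NPC.Poly.map (l := fun t => List.range (E t + 1))
    (F := fun t e => ((valB (y t ++ [true]) : ℕ) : ℤ) ^ (min e (E t))) hE1.range
    (NPC.Poly.ipow (hn.comp e1) hm)).congr fun t => ?_
  refine List.map_congr_left fun e he => ?_
  have := List.mem_range.1 he
  rw [min_eq_left (by omega)]

/-- The strings of length at most `ℓ` in a set are the zeros of a polynomial. -/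
theorem exists_coeff (S : Set (List Bool)) (ℓ E : ℕ) (hE : census S ℓ ≤ E) :
    ∃ u : ℕ → ℝ, ∀ y : List Bool, y.length ≤ ℓ →
      (bits (pw E y) ∈ EqualityGate u 0 ↔ y ∈ S) := by
  classical
  have hfin : {y ∈ S | y.length ≤ ℓ}.Finite :=
    (List.finite_length_le Bool ℓ).subset fun y hy => hy.2
  set P : Polynomial ℝ := ∏ s ∈ hfin.toFinset, (Polynomial.X - Polynomial.C ((num s : ℕ) : ℝ))
    with hP
  have hdeg : P.natDegree ≤ E := by
    rw [hP, Polynomial.natDegree_prod_of_monic _ _ fun s _ => Polynomial.monic_X_sub_C _]
    simp only [Polynomial.natDegree_X_sub_C, Finset.sum_const, smul_eq_mul, mul_one]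
    have h1 : census S ℓ = hfin.toFinset.card := by
      unfold census
      rw [Set.ncard_eq_toFinset_card _ hfin]
    omega
  refine ⟨fun e => P.coeff e, fun y hy => ?_⟩
  have hsum : ∑ j ∈ Finset.range (pw E y).length, P.coeff j * ((pw E y).getD j 0 : ℝ) =
      P.eval ((num y : ℕ) : ℝ) := by
    rw [Polynomial.eval_eq_sum_range' (n := E + 1) (by omega)]
    have h1 : (pw E y).length = E + 1 := by simp [pw]
    rw [h1]
    refine Finset.sum_congr rfl fun j hj => ?_
    have hj' := Finset.mem_range.1 hj
    rw [List.getD_eq_getElem _ _ (by omega)]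
    unfold pw
    rw [List.getElem_map, List.getElem_range]
    push_cast
    rfl
  have heval : P.eval ((num y : ℕ) : ℝ) = 0 ↔ y ∈ S := by
    rw [hP, Polynomial.eval_prod, Finset.prod_eq_zero_iff]
    constructor
    · rintro ⟨s, hs, h⟩
      rw [Polynomial.eval_sub, Polynomial.eval_X, Polynomial.eval_C, sub_eq_zero, Nat.cast_inj] at h
      rw [num_injective h]
      exact ((Set.Finite.mem_toFinset hfin).1 hs).1
    · intro h
      exact ⟨y, (Set.Finite.mem_toFinset hfin).2 ⟨h, hy⟩, by simp⟩
  constructor
  · rintro ⟨v, hv, h⟩
    obtain rfl := bits_injective hv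
    rw [hsum] at h
    exact heval.1 h
  · intro h
    exact ⟨_, rfl, by rw [hsum]; exact heval.2 h⟩

/-- **A Turing reduction with few negative answers to a sparse set** is a computation with few
negative answers of an equality gate. -/
theorem fewNegative_of_reduces {A S : Set (List Bool)} {k : ℕ} (hS : Sparse S)
    (h : ReducesFewNegative k A S) : FewNegative k A := by
  classical
  obtain ⟨q, g, r, hq, hg, hA, hside⟩ := h
  obtain ⟨cp, hcp⟩ := hS
  have hqp : Poly q := H622R2.poly_of_polyTime hq
  have hgp : Poly g := H622R2.poly_of_polyTime hg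
  obtain ⟨p1, hp1⟩ := hqp.sz_le
  -- the bound on the lengths of the questions
  set Lp : Polynomial ℕ := p1.comp (Polynomial.C 4 * (Polynomial.C 2 * Polynomial.X + 1 + r) + 1)
    with hLp
  have hqlen : ∀ n : ℕ, ∀ x s : List Bool, x.length ≤ n → s.length ≤ r.eval n →
      (q (pairBits x s)).length ≤ Lp.eval n := by
    intro n x s hx hs
    have h1 := hp1 (pairBits x s)
    have h2 := length_lt_sz (q (pairBits x s))
    have h3 := sz_listBool_le (pairBits x s)
    rw [pairBits_length] at h3
    have h4 := eval_mono p1 (m := sz (pairBits x s))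
      (n := 4 * (2 * n + 1 + r.eval n) + 1) (by omega)
    rw [hLp, Polynomial.eval_comp]
    simp only [Polynomial.eval_add, Polynomial.eval_mul, Polynomial.eval_C, Polynomial.eval_X,
      Polynomial.eval_one]
    omega
  obtain ⟨b, hb⟩ := exists_pow_add_bound r
  -- the decoding
  set dc : List Bool → List Bool × (List Bool × ℕ) := fun z =>
    (unbits (List Bool × (List Bool × ℕ)) z).getD ([], ([], 0)) with hdc
  have hdcp : Poly dc := NPC.Poly.optGetD poly_unbits (NPC.Poly.const _)
  have hdce : ∀ t, dc (bits t) = t := by
    intro t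
    rw [hdc]
    simp only [unbits_bits, Option.getD_some]
  have hz : Poly (fun v : List Bool => (unpair v).1) := NPC.Poly.fst poly_unpair
  have hs : Poly (fun v : List Bool => (unpair v).2) := NPC.Poly.snd poly_unpair
  have hx : Poly (fun v : List Bool => (dc (unpair v).1).1) := NPC.Poly.fst (hdcp.comp hz)
  have hρ : Poly (fun v : List Bool => (dc (unpair v).1).2.1) :=
    NPC.Poly.fst (NPC.Poly.snd (hdcp.comp hz))
  set q' : List Bool → List Bool := fun v =>
    if (unpair v).2.length < r.eval (dc (unpair v).1).1.length then
      bits (pw ((cp.comp Lp).eval (dc (unpair v).1).2.1.length)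
        (q (pairBits (dc (unpair v).1).1 (unpair v).2)))
    else bits ([] : List ℤ) with hq'
  have hrx : UPoly (fun v : List Bool => r.eval (dc (unpair v).1).1.length) :=
    (UPoly.length hx).eval r
  have hq'p : Poly q' := by
    refine NPC.Poly.ite (NPC.Poly.decide_lt (NPC.Poly.length hs) hrx.toPoly)
      (bits_poly.comp (pw_poly ((UPoly.length hρ).eval (cp.comp Lp))
        (hqp.comp (H622R2.poly_pairBits hx hs)))) (NPC.Poly.const _)
  set f' : List Bool → List ℤ := fun v =>
    if g (pairBits (dc (unpair v).1).1 ((unpair v).2.take (r.eval (dc (unpair v).1).1.length))) =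
      [true] then [1] else [0] with hf'
  have hf'p : Poly f' := by
    refine NPC.Poly.ite (NPC.Poly.decide_eq (hgp.comp (H622R2.poly_pairBits hx
      (take_poly' hs hrx.toPoly))) (NPC.Poly.const [true])) (NPC.Poly.const _) (NPC.Poly.const _)
  refine ⟨q', f', b, H622R2.polyTime_of_poly_list hq'p, polyTime_bits hf'p, fun n => ?_⟩
  obtain ⟨u, hu⟩ := exists_coeff S (Lp.eval n) ((cp.comp Lp).eval n) (by
    have h1 := hcp (Lp.eval n)
    rwa [← Polynomial.eval_comp] at h1)
  have hrn : ∀ x : List Bool, x.length ≤ n → r.eval x.length ≤ r.eval n := fun x hxn =>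
    eval_mono r hxn
  have key1 : ∀ x : List Bool, x.length ≤ n → ∀ t ≤ r.eval x.length,
      adaptive (EqualityGate u 0) q' (bits (x, (List.replicate n true, 0))) t =
        adaptive S q x t := by
    intro x hxn t
    have hrx := hrn x hxn
    induction t with
    | zero => intro _; rfl
    | succ t ih =>
      intro ht
      rw [adaptive_succ, adaptive_succ, ih (by omega)]
      congr 2
      have h1 : q' (pairBits (bits (x, (List.replicate n true, 0))) (adaptive S q x t)) =
          bits (pw ((cp.comp Lp).eval n) (q (pairBits x (adaptive S q x t)))) := by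
        rw [hq']
        simp only [unpair_pairBits, hdce, adaptive_length, List.length_replicate]
        rw [if_pos (by omega)]
      rw [h1]
      exact decide_eq_decide.2 (hu _ (hqlen n x _ hxn (by rw [adaptive_length]; omega)))
  have key2 : ∀ x : List Bool, x.length ≤ n → ∀ t,
      adaptive (EqualityGate u 0) q' (bits (x, (List.replicate n true, 0)))
        (r.eval x.length + t) = adaptive S q x (r.eval x.length) ++ List.replicate t true := by
    intro x hxn t
    induction t with
    | zero => rw [add_zero, key1 x hxn _ le_rfl]; simp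
    | succ t ih =>
      rw [← add_assoc, adaptive_succ, ih]
      have h1 : q' (pairBits (bits (x, (List.replicate n true, 0)))
          (adaptive S q x (r.eval x.length) ++ List.replicate t true)) = bits ([] : List ℤ) := by
        rw [hq']
        simp only [unpair_pairBits, hdce, adaptive_length, List.length_append,
          List.length_replicate]
        rw [if_neg (by omega)]
      rw [h1]
      have h2 := nil_mem u
      rw [List.replicate_succ', List.append_assoc]
      simp [h2]
  have key : ∀ x : List Bool, x.length ≤ n →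
      adaptive (EqualityGate u 0) q' (bits (x, (List.replicate n true, 0))) (n ^ b + b) =
        adaptive S q x (r.eval x.length) ++ List.replicate (n ^ b + b - r.eval x.length) true := by
    intro x hxn
    have h1 := hb n
    have h2 := hrn x hxn
    rw [← key2 x hxn, Nat.add_sub_cancel' (by omega)]
  have hcount : ∀ x : List Bool, x.length ≤ n →
      (adaptive (EqualityGate u 0) q' (bits (x, (List.replicate n true, 0)))
        (n ^ b + b)).count false = (adaptive S q x (r.eval x.length)).count false := by
    intro x hxn
    rw [key x hxn, List.count_append, List.count_replicate]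
    simp
  refine ⟨0, Nat.zero_le _, u, 0, fun _ => 1, 1 / 2, fun x hxn => ?_, ?_⟩
  · rw [key x hxn, hA x, hf']
    simp only [unpair_pairBits, hdce]
    rw [List.take_append_of_le_length (by rw [adaptive_length]),
      List.take_of_length_le (by rw [adaptive_length])]
    unfold Gate
    by_cases hgx : g (pairBits x (adaptive S q x (r.eval x.length))) = [true]
    · simp only [hgx, if_true, List.length_singleton, Finset.sum_range_one, List.getD_cons_zero,
        Int.cast_one, mul_one, true_iff]
      norm_num
    · simp only [hgx, if_false, List.length_singleton, Finset.sum_range_one, List.getD_cons_zero,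
        Int.cast_zero, mul_zero, false_iff, not_lt]
      norm_num
  · rcases hside with h | h
    · exact Or.inl fun x hx hxn => by rw [hcount x hxn]; exact h x hx
    · exact Or.inr fun x hx hxn => by rw [hcount x hxn]; exact h x hx

/-- A set in `P` reduces to every set without questions. -/
theorem reduces_of_inP {A : Set (List Bool)} (hA : InP A) (S : Set (List Bool)) (k : ℕ) :
    ReducesFewNegative k A S := by
  obtain ⟨W, hW, hWA⟩ := hA
  have hWp : Poly W := H622R2.poly_of_polyTime hW
  refine ⟨fun _ => [], fun v => W (unpair v).1, 0, H622R2.polyTime_of_poly_list (NPC.Poly.const _),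
    H622R2.polyTime_of_poly_list (hWp.comp (NPC.Poly.fst poly_unpair)), fun x => ?_,
    Or.inl fun x _ => ?_⟩
  · simp only [unpair_pairBits]
    exact hWA x
  · rw [Polynomial.eval_zero]
    simp [adaptive]

theorem sparse_empty : Sparse (∅ : Set (List Bool)) := ⟨0, fun n => by simp [census]⟩

/-- **Few negative answers.** -/
theorem few_negative_tfae : List.TFAE
    [∀ L : Set (List Bool), InNP L → InP L,
      ∃ S : Set (List Bool), Sparse S ∧ ∀ L, InNP L → ∃ k, ReducesFewNegative k L S,
      ∃ (A S : Set (List Bool)) (k : ℕ), NPHard A ∧ Sparse S ∧ ReducesFewNegative k A S,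
      ∃ (A : Set (List Bool)) (k : ℕ), NPHard A ∧ FewNegative k A,
      ∀ A : Set (List Bool), InNP A → FewNegative 0 A] := by
  have hsat := Pool.Agent.NPC.H545KS.sat_complete
  tfae_have 1 → 5 := fun h A hA => fewNegative_of_reduces sparse_empty (reduces_of_inP (h A hA) _ 0)
  tfae_have 5 → 4 := fun h => ⟨_, 0, hsat.2, h _ hsat.1⟩
  tfae_have 1 → 2 := fun h => ⟨∅, sparse_empty, fun L hL => ⟨0, reduces_of_inP (h L hL) _ 0⟩⟩
  tfae_have 2 → 3 := fun ⟨S, h1, h2⟩ => by
    obtain ⟨k, hk⟩ := h2 _ hsat.1
    exact ⟨_, S, k, hsat.2, h1, hk⟩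
  tfae_have 3 → 4 := fun ⟨A, S, k, h1, h2, h3⟩ => ⟨A, k, h1, fewNegative_of_reduces h2 h3⟩
  tfae_have 4 → 1 := fun ⟨A, k, h1, h2⟩ => p_eq_np_of_fewNegative h1 h2
  tfae_finish

end Pool.Agent.TH684.FN
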