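import Pool.Agent.TH684.FN.Defs

/-!
# The possible answer vectors with few negative answers
-/

set_option autoImplicit false

namespace Pool.Agent.TH684.FN

open Pool.Agent.NPC Pool.Agent.H251R5.PQ Pool.Agent.TH684.LT

/-- The lists of `k` numbers at most `r`. -/
def stages (r : ℕ) : ℕ → List (List ℕ)
  | 0 => [[]]
  | k + 1 => (stages r k).flatMap fun l => (List.range (r + 1)).map fun i => i :: l

theorem mem_stages {r : ℕ} : ∀ {k : ℕ} {l : List ℕ}, l.length = k → (∀ i ∈ l, i ≤ r) →
    l ∈ stages r k
  | 0, [], _, _ => by simp [stages]
  | k + 1, i :: l, hl, h => by
    refine List.mem_flatMap.2 ⟨l, mem_stages (by simpa using hl) fun j hj => h j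
      (List.mem_cons_of_mem _ hj), List.mem_map.2 ⟨i, List.mem_range.2 ?_, rfl⟩⟩
    have := h i List.mem_cons_self
    omega

theorem length_stages (r k : ℕ) : (stages r k).length = (r + 1) ^ k := by
  induction k with
  | zero => simp [stages]
  | succ k ih =>
    unfold stages
    rw [List.length_flatMap]
    simp [ih, pow_succ]

/-- The vector of length `r` whose negative entries are at the positions in `d`. -/
def patt (r : ℕ) (d : List ℕ) : List Bool := (List.range r).map fun i => decide (i ∉ d)

@[simp] theorem patt_length (r : ℕ) (d : List ℕ) : (patt r d).length = r := by simp [patt]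

theorem patt_getElem? {r i : ℕ} (d : List ℕ) (hi : i < r) :
    (patt r d)[i]? = some (decide (i ∉ d)) := by
  unfold patt
  rw [List.getElem?_map, List.getElem?_range hi]
  rfl

theorem patt_surj {r k : ℕ} (u : List Bool) (hu : u.length = r) (hk : u.count false ≤ k) :
    ∃ d ∈ stages r k, patt r d = u := by
  set d0 : List ℕ := (List.range r).filter fun i => !(u.getD i true) with hd0
  have h1 : d0.length = u.count false := by
    have h2 : u = (List.range r).map fun i => u.getD i true := by
      refine List.ext_getElem (by simp [hu]) fun i h1 h2 => ?_
      rw [List.getElem_map, List.getElem_range, List.getD_eq_getElem _ _ h1]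
    conv_rhs => rw [h2]
    rw [List.count, List.countP_map, List.countP_eq_length_filter, hd0]
    congr 1
    refine List.filter_congr fun i _ => ?_
    simp only [Function.comp_apply]
    cases u.getD i true <;> rfl
  refine ⟨d0 ++ List.replicate (k - d0.length) r, mem_stages ?_ ?_, ?_⟩
  · simp
    omega
  · intro i hi
    rcases List.mem_append.1 hi with h | h
    · have := List.mem_range.1 (List.mem_filter.1 h).1
      omega
    · exact (List.eq_of_mem_replicate h).le
  · refine List.ext_getElem (by simp [hu]) fun i h2 h3 => ?_
    have hi : i < r := by simpa using h2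
    have h4 := patt_getElem? (d0 ++ List.replicate (k - d0.length) r) hi
    rw [List.getElem?_eq_getElem h2, Option.some.injEq] at h4
    rw [h4]
    have h5 : (i ∈ d0 ++ List.replicate (k - d0.length) r) ↔ u[i] = false := by
      rw [List.mem_append, hd0, List.mem_filter, List.mem_range, List.getD_eq_getElem _ _ h3]
      constructor
      · rintro (⟨_, h⟩ | h)
        · simpa using h
        · have := List.eq_of_mem_replicate h
          omega
      · intro h
        left
        exact ⟨hi, by simp [h]⟩
    rcases hb : u[i] with _ | _
    · simp only [decide_not, Bool.not_eq_false', decide_eq_true_eq]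
      exact h5.2 hb
    · simp only [decide_eq_true_eq]
      intro h
      rw [h5.1 h] at hb
      exact absurd hb (by simp)

/-- The number with the negated entries as binary digits. -/
def hv : List Bool → ℕ
  | [] => 0
  | b :: l => (if b then 0 else 2 ^ l.length) + hv l

theorem hv_lt (l : List Bool) : hv l < 2 ^ l.length := by
  induction l with
  | nil => simp [hv]
  | cons b l ih =>
    unfold hv
    rw [List.length_cons, pow_succ]
    split_ifs <;> omega

theorem hv_lex : ∀ s t : List Bool, s.length = t.length → s ≠ t →
    (∀ i, s.take i = t.take i → s[i]? = some false → t[i]? = some true → False) → hv s < hv t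
  | [], [], _, h, _ => absurd rfl h
  | [], _ :: _, h, _, _ => by simp at h
  | _ :: _, [], h, _, _ => by simp at h
  | a :: s, b :: t, hl, hne, h => by
    have hl' : s.length = t.length := by simpa using hl
    by_cases hab : a = b
    · subst hab
      have h1 := hv_lex s t hl' (fun h' => hne (by rw [h'])) fun i h1 h2 h3 =>
        h (i + 1) (by simp [h1]) (by simpa using h2) (by simpa using h3)
      unfold hv
      rw [hl']
      omega
    · have h1 := h 0 (by simp)
      have h2 := hv_lt s
      cases a <;> cases b <;> simp_all [hv]
      omega

open Classical in
theorem adaptive_succ (L : Set (List Bool)) (q : List Bool → List Bool) (x : List Bool) (k : ℕ) :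
    adaptive L q x (k + 1) =
      adaptive L q x k ++ [decide (q (pairBits x (adaptive L q x k)) ∈ L)] := rfl

theorem adaptive_length (L : Set (List Bool)) (q : List Bool → List Bool) (x : List Bool) (k : ℕ) :
    (adaptive L q x k).length = k := by
  induction k with
  | zero => simp [adaptive]
  | succ k ih => simp [adaptive, ih]

theorem adaptive_take (L : Set (List Bool)) (q : List Bool → List Bool) (x : List Bool) :
    ∀ {k i : ℕ}, i ≤ k → (adaptive L q x k).take i = adaptive L q x i := by
  intro k
  induction k with
  | zero =>
    intro i hi
    obtain rfl : i = 0 := by omega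
    rfl
  | succ k ih =>
    intro i hi
    rcases Nat.lt_or_ge i (k + 1) with h | h
    · rw [adaptive_succ, List.take_append_of_le_length (by rw [adaptive_length]; omega),
        ih (by omega)]
    · obtain rfl : i = k + 1 := by omega
      rw [List.take_of_length_le (by rw [adaptive_length])]

open Classical in
theorem adaptive_getElem? (L : Set (List Bool)) (q : List Bool → List Bool) (x : List Bool)
    {k i : ℕ} (hi : i < k) : (adaptive L q x k)[i]? =
      some (decide (q (pairBits x (adaptive L q x i)) ∈ L)) := by
  have h1 : (adaptive L q x k)[i]? = ((adaptive L q x k).take (i + 1))[i]? := by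
    rw [List.getElem?_take_of_lt (by omega)]
  rw [h1, adaptive_take L q x (by omega : i + 1 ≤ k), adaptive_succ,
    List.getElem?_append_right (by rw [adaptive_length]), adaptive_length]
  simp

/-- If all questions at the negative positions of the pattern `d` would be answered no, then the
pattern is the vector of the answers or smaller. -/
theorem patt_cases (L : Set (List Bool)) (q : List Bool → List Bool) (x : List Bool) (r : ℕ)
    (d : List ℕ) (h : ∀ i ∈ d, i < r → q (pairBits x ((patt r d).take i)) ∉ L) :
    patt r d = adaptive L q x r ∨ hv (patt r d) < hv (adaptive L q x r) := by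
  by_cases he : patt r d = adaptive L q x r
  · exact Or.inl he
  refine Or.inr (hv_lex _ _ (by simp [adaptive_length]) he fun i h1 h2 h3 => ?_)
  have hi : i < r := by
    by_contra hcon
    rw [List.getElem?_eq_none (by simpa using not_lt.1 hcon)] at h2
    exact absurd h2 (by simp)
  rw [patt_getElem? d hi] at h2
  have h4 : i ∈ d := by simpa using h2
  rw [adaptive_getElem? L q x hi] at h3
  rw [adaptive_take L q x hi.le] at h1
  have h5 : q (pairBits x (adaptive L q x i)) ∈ L := by simpa using h3
  exact h i h4 hi (by rw [h1]; exact h5)

end Pool.Agent.TH684.FN
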