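import Pool.Agent.TH684.FN.Main

/-!
# Stopping after `k + 1` negative answers
-/

set_option autoImplicit false

namespace Pool.Agent.TH684.FN

open Pool.Agent.NPC Pool.Agent.H251R5.PQ Pool.Agent.TH684.LT Pool.Agent.H579R2.Spt
open Pool.Agent.TH684.EX (poly_of_polyTime)

/-- Two new coordinates for the equality gate. -/
def up (u : ℕ → ℝ) (c : ℝ) : ℕ → ℝ
  | 0 => -c
  | 1 => 1
  | i + 2 => u i

/-- Two new coordinates for the threshold gate. -/
def wp (w : ℕ → ℝ) (θ δ : ℝ) : ℕ → ℝ
  | 0 => -θ
  | 1 => δ
  | i + 2 => w i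

theorem mem_up_cons (u : ℕ → ℝ) (c : ℝ) (t : List ℤ) :
    bits (1 :: 0 :: t : List ℤ) ∈ EqualityGate (up u c) 0 ↔ bits t ∈ EqualityGate u c := by
  have h1 : ∑ j ∈ Finset.range (1 :: 0 :: t : List ℤ).length,
      up u c j * ((1 :: 0 :: t : List ℤ).getD j 0 : ℝ) =
      ∑ j ∈ Finset.range t.length, u j * (t.getD j 0 : ℝ) - c := by
    rw [List.length_cons, List.length_cons, Finset.sum_range_succ', Finset.sum_range_succ']
    simp only [List.getD_cons_succ, List.getD_cons_zero, Int.cast_zero, mul_zero, add_zero,
      Int.cast_one, mul_one]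
    rfl
  constructor
  · rintro ⟨v, hv, h⟩
    obtain rfl := bits_injective hv
    rw [h1, sub_eq_zero] at h
    exact ⟨t, rfl, h⟩
  · rintro ⟨v, hv, h⟩
    obtain rfl := bits_injective hv
    exact ⟨_, rfl, by rw [h1, h, sub_self]⟩

theorem not_mem_up (u : ℕ → ℝ) (c : ℝ) : bits ([0, 1] : List ℤ) ∉ EqualityGate (up u c) 0 := by
  rintro ⟨v, hv, h⟩
  obtain rfl := bits_injective hv
  simp [Finset.sum_range_succ, up] at h

theorem nil_mem (u : ℕ → ℝ) : bits ([] : List ℤ) ∈ EqualityGate u 0 := ⟨[], rfl, by simp⟩

theorem gate_cons (w : ℕ → ℝ) (θ δ : ℝ) (t : List ℤ) :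
    Gate (wp w θ δ) 0 (1 :: 0 :: t) ↔ Gate w θ t := by
  unfold Gate
  rw [List.length_cons, List.length_cons, Finset.sum_range_succ', Finset.sum_range_succ']
  simp only [List.getD_cons_succ, List.getD_cons_zero, Int.cast_zero, mul_zero, add_zero,
    Int.cast_one, mul_one]
  change 0 < ∑ j ∈ Finset.range t.length, w j * (t.getD j 0 : ℝ) + -θ ↔ _
  rw [← sub_eq_add_neg, sub_pos]

theorem gate_stop (w : ℕ → ℝ) (θ δ : ℝ) : Gate (wp w θ δ) 0 [0, 1] ↔ 0 < δ := by
  unfold Gate
  simp [Finset.sum_range_succ, wp]

theorem count_poly {α : Type} [TEnc α] {s : α → List Bool} (hs : Poly s) :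
    Poly (fun t => (s t).count false) := by
  refine (NPC.Poly.length (NPC.Poly.filter (l := s) (p := fun _ b => decide (b = false)) hs
    (NPC.Poly.decide_eq (NPC.Poly.snd NPC.Poly.id) (NPC.Poly.const false)))).congr fun t => ?_
  rw [List.count_eq_length_filter]
  congr 1

/-- It suffices to bound the number of negative answers on one side. -/
theorem fewNegativeAll_of {k : ℕ} {A : Set (List Bool)} (h : FewNegative k A) :
    FewNegativeAll (k + 1) A := by
  classical
  obtain ⟨q, f, b, hq, hf, hgate⟩ := h
  have hqp : Poly q := H622R2.poly_of_polyTime hq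
  have hfp : Poly f := poly_of_polyTime hf
  set q' : List Bool → List Bool := fun v =>
    if (unpair v).2.count false ≤ k then
      ((unbits (List ℤ) (q v)).map fun t => bits (1 :: 0 :: t : List ℤ)).getD
        (bits ([0, 1] : List ℤ))
    else bits ([] : List ℤ) with hq'
  have hcp : Poly (fun v : List Bool => decide ((unpair v).2.count false ≤ k)) :=
    NPC.Poly.decide_le (count_poly (NPC.Poly.snd poly_unpair)) (NPC.Poly.const k)
  have hq'p : Poly q' := by
    refine NPC.Poly.ite hcp (NPC.Poly.optGetD (NPC.Poly.optMap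
      (o := fun v => unbits (List ℤ) (q v)) (f := fun _ t => bits (1 :: 0 :: t : List ℤ))
      (poly_unbits.comp hqp) (bits_poly.comp (NPC.Poly.cons (NPC.Poly.const 1)
        (NPC.Poly.cons (NPC.Poly.const 0) (NPC.Poly.snd NPC.Poly.id))))) (NPC.Poly.const _))
      (NPC.Poly.const _)
  set f' : List Bool → List ℤ := fun v =>
    if (unpair v).2.count false ≤ k then 1 :: 0 :: f v else [0, 1] with hf'
  have hf'p : Poly f' := NPC.Poly.ite hcp (NPC.Poly.cons (NPC.Poly.const 1)
    (NPC.Poly.cons (NPC.Poly.const 0) hfp)) (NPC.Poly.const _)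
  refine ⟨q', f', b, H622R2.polyTime_of_poly_list hq'p, polyTime_bits hf'p, fun n => ?_⟩
  obtain ⟨a, ha, u, c, w, θ, hdec, hside⟩ := hgate n
  refine ⟨a, ha, up u c, 0, ?_⟩
  -- the new questions
  have hans1 : ∀ z s : List Bool, s.count false ≤ k →
      (q' (pairBits z s) ∈ EqualityGate (up u c) 0 ↔ q (pairBits z s) ∈ EqualityGate u c) := by
    intro z s hs
    rw [hq']
    simp only [unpair_pairBits]
    rw [if_pos hs]
    cases hv : unbits (List ℤ) (q (pairBits z s)) with
    | none =>
      simp only [Option.map_none, Option.getD_none]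
      refine ⟨fun h => absurd h (not_mem_up u c), fun ⟨v, h2, _⟩ => ?_⟩
      rw [h2, unbits_bits] at hv
      exact absurd hv (by simp)
    | some v =>
      simp only [Option.map_some, Option.getD_some]
      rw [mem_up_cons, bits_of_unbits hv]
  have hans2 : ∀ z s : List Bool, k < s.count false →
      q' (pairBits z s) ∈ EqualityGate (up u c) 0 := by
    intro z s hs
    rw [hq']
    simp only [unpair_pairBits]
    rw [if_neg (by omega)]
    exact nil_mem _
  have key : ∀ (z : List Bool) (t : ℕ),
      ((adaptive (EqualityGate u c) q z t).count false ≤ k →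
        adaptive (EqualityGate (up u c) 0) q' z t = adaptive (EqualityGate u c) q z t) ∧
      (k < (adaptive (EqualityGate u c) q z t).count false →
        (adaptive (EqualityGate (up u c) 0) q' z t).count false = k + 1) := by
    intro z t
    induction t with
    | zero => exact ⟨fun _ => rfl, fun h => by simp [adaptive] at h⟩
    | succ t ih =>
      obtain ⟨ih1, ih2⟩ := ih
      rw [adaptive_succ, adaptive_succ]
      by_cases hc : (adaptive (EqualityGate u c) q z t).count false ≤ k
      · rw [ih1 hc]
        have h1 := hans1 z _ hc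
        have h2 : decide (q' (pairBits z (adaptive (EqualityGate u c) q z t)) ∈
            EqualityGate (up u c) 0) = decide (q (pairBits z
            (adaptive (EqualityGate u c) q z t)) ∈ EqualityGate u c) := decide_eq_decide.2 h1
        rw [h2]
        refine ⟨fun _ => rfl, fun h3 => ?_⟩
        rw [List.count_append] at h3 ⊢
        have h4 : [decide (q (pairBits z (adaptive (EqualityGate u c) q z t)) ∈
            EqualityGate u c)].count false ≤ 1 := List.count_le_length
        omega
      · have hc' : k < (adaptive (EqualityGate u c) q z t).count false := by omega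
        refine ⟨fun h3 => ?_, fun _ => ?_⟩
        · rw [List.count_append] at h3
          omega
        · have h5 := ih2 hc'
          have h6 := hans2 z (adaptive (EqualityGate (up u c) 0) q' z t) (by omega)
          rw [List.count_append, h5]
          simp [h6]
  have hcnt : ∀ z t, (adaptive (EqualityGate (up u c) 0) q' z t).count false ≤ k + 1 := by
    intro z t
    rcases Nat.lt_or_ge k ((adaptive (EqualityGate u c) q z t).count false) with h | h
    · exact ((key z t).2 h).le
    · rw [(key z t).1 h]
      omega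
  obtain ⟨δ, hδ⟩ : ∃ δ : ℝ, ∀ x : List Bool, x.length ≤ n →
      k < (adaptive (EqualityGate u c) q (bits (x, (List.replicate n true, a)))
        (n ^ b + b)).count false → (x ∈ A ↔ 0 < δ) := by
    rcases hside with h | h
    · refine ⟨-1, fun x hx hk => ⟨fun hxA => ?_, fun h0 => ?_⟩⟩
      · have := h x hxA hx
        omega
      · norm_num at h0
    · refine ⟨1, fun x hx hk => ⟨fun _ => one_pos, fun _ => ?_⟩⟩
      by_contra hxA
      have := h x hxA hx
      omega
  refine ⟨wp w θ δ, 0, fun x hx => ⟨hcnt _ _, ?_⟩⟩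
  rw [hf']
  simp only [unpair_pairBits]
  rcases Nat.lt_or_ge k ((adaptive (EqualityGate u c) q (bits (x, (List.replicate n true, a)))
    (n ^ b + b)).count false) with h | h
  · rw [(key _ _).2 h, if_neg (by omega), gate_stop]
    exact hδ x hx h
  · rw [(key _ _).1 h, if_pos h, gate_cons]
    exact hdec x hx

/-- **Few negative answers on one side.** -/
theorem p_eq_np_of_fewNegative {A : Set (List Bool)} {k : ℕ} (hA : NPHard A)
    (h : FewNegative k A) : ∀ L : Set (List Bool), InNP L → InP L :=
  p_eq_np_of_fewNegativeAll hA (fewNegativeAll_of h)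

end Pool.Agent.TH684.FN
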