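import Pool.Agent.TH684.FN.Stages
import Pool.Agent.TH684.LT.PTF

/-!
# The vectors and the polynomial
-/

set_option autoImplicit false

namespace Pool.Agent.TH684.FN

open Pool.Agent.NPC Pool.Agent.H251R5.PQ Pool.Agent.TH684.LT Finset

/-- The vector of the question at the position number `t` of the list `d`: `0 :: 1 :: v` for the
question `v`, and `[1]` if there is no such question. -/
def gv (q : List Bool → List Bool) (z : List Bool) (r : ℕ) (d : List ℕ) (t : ℕ) : List ℤ :=
  if d.getD t r < r then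
    (((unbits (List ℤ) (q (pairBits z ((patt r d).take (d.getD t r))))).map
      fun v => 0 :: 1 :: v).getD [1])
  else [1]

/-- The vector number `t`. -/
def V (q : List Bool → List Bool) (f : List Bool → List ℤ) (z : List Bool) (r k : ℕ) (d : List ℕ)
    (t : ℕ) : List ℤ :=
  if t < k then gv q z r d t else 0 :: 1 :: f (pairBits z (patt r d))

/-- All vectors, in blocks of length `C + 2`. -/
def F0 (k : ℕ) (q : List Bool → List Bool) (f : List Bool → List ℤ) (z : List Bool) (r C : ℕ) :
    List ℤ :=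
  (List.range ((stages r k).length * (k + 1) * (C + 2))).map fun i =>
    (V q f z r k ((stages r k).getD (i / (C + 2) / (k + 1)) []) (i / (C + 2) % (k + 1))).getD
      (i % (C + 2)) 0

theorem F0_getD (k : ℕ) (q : List Bool → List Bool) (f : List Bool → List ℤ) (z : List Bool)
    (r C : ℕ) {j t c : ℕ} (hj : j < (stages r k).length) (ht : t < k + 1) (hc : c < C + 2) :
    (F0 k q f z r C).getD ((j * (k + 1) + t) * (C + 2) + c) 0 =
      (V q f z r k ((stages r k).getD j []) t).getD c 0 := by
  have h1 : (j * (k + 1) + t) * (C + 2) + c < (stages r k).length * (k + 1) * (C + 2) := by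
    have h2 : j * (k + 1) + t + 1 ≤ (stages r k).length * (k + 1) := by
      have h3 : (j + 1) * (k + 1) ≤ (stages r k).length * (k + 1) := Nat.mul_le_mul_right _ hj
      have h4 : (j + 1) * (k + 1) = j * (k + 1) + (k + 1) := by ring
      omega
    have h3 : (j * (k + 1) + t + 1) * (C + 2) ≤ (stages r k).length * (k + 1) * (C + 2) :=
      Nat.mul_le_mul_right _ h2
    have h4 : (j * (k + 1) + t + 1) * (C + 2) = (j * (k + 1) + t) * (C + 2) + (C + 2) := by ring
    omega
  have e1 : ((j * (k + 1) + t) * (C + 2) + c) / (C + 2) = j * (k + 1) + t := by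
    rw [mul_comm, Nat.mul_add_div (by omega), Nat.div_eq_of_lt hc, add_zero]
  have e2 : ((j * (k + 1) + t) * (C + 2) + c) % (C + 2) = c := by
    rw [mul_comm, Nat.mul_add_mod, Nat.mod_eq_of_lt hc]
  have e3 : (j * (k + 1) + t) / (k + 1) = j := by
    rw [mul_comm, Nat.mul_add_div (by omega), Nat.div_eq_of_lt ht, add_zero]
  have e4 : (j * (k + 1) + t) % (k + 1) = t := by
    rw [mul_comm, Nat.mul_add_mod, Nat.mod_eq_of_lt ht]
  unfold F0
  rw [List.getD_eq_getElem _ _ (by simpa using h1), List.getElem_map, List.getElem_range, e1, e2,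
    e3, e4]

/-- The polynomial. -/
noncomputable def pol (k r C : ℕ) (κ κ' h : ℕ → ℝ) : MvPolynomial ℕ ℝ :=
  ∑ j ∈ range (stages r k).length, MvPolynomial.C (h j) *
    ((∏ t ∈ range k, (∑ c ∈ range (C + 2), MvPolynomial.C (κ c) *
      MvPolynomial.X ((j * (k + 1) + t) * (C + 2) + c)) ^ 2) *
    ∑ c ∈ range (C + 2), MvPolynomial.C (κ' c) *
      MvPolynomial.X ((j * (k + 1) + k) * (C + 2) + c))

theorem pol_degree (k r C : ℕ) (κ κ' h : ℕ → ℝ) :
    (pol k r C κ κ' h).totalDegree ≤ 2 * k + 1 := by
  have hlin : ∀ (s : ℕ → ℝ) (g : ℕ → ℕ), (∑ c ∈ range (C + 2), MvPolynomial.C (s c) *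
      MvPolynomial.X (g c) : MvPolynomial ℕ ℝ).totalDegree ≤ 1 := by
    intro s g
    refine MvPolynomial.totalDegree_finsetSum_le fun c _ => ?_
    refine (MvPolynomial.totalDegree_mul _ _).trans ?_
    rw [MvPolynomial.totalDegree_C, MvPolynomial.totalDegree_X]
  unfold pol
  refine MvPolynomial.totalDegree_finsetSum_le fun j _ => ?_
  refine (MvPolynomial.totalDegree_mul _ _).trans ?_
  rw [MvPolynomial.totalDegree_C, zero_add]
  refine (MvPolynomial.totalDegree_mul _ _).trans ?_
  have h1 : (∏ t ∈ range k, (∑ c ∈ range (C + 2), MvPolynomial.C (κ c) *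
      MvPolynomial.X ((j * (k + 1) + t) * (C + 2) + c)) ^ 2 : MvPolynomial ℕ ℝ).totalDegree ≤
      2 * k := by
    refine (MvPolynomial.totalDegree_finsetProd _ _).trans ?_
    calc ∑ t ∈ range k, ((∑ c ∈ range (C + 2), MvPolynomial.C (κ c) *
          MvPolynomial.X ((j * (k + 1) + t) * (C + 2) + c)) ^ 2 : MvPolynomial ℕ ℝ).totalDegree
        ≤ ∑ _t ∈ range k, 2 := by
          refine Finset.sum_le_sum fun t _ => ?_
          refine (MvPolynomial.totalDegree_pow _ _).trans ?_
          have := hlin κ fun c => (j * (k + 1) + t) * (C + 2) + c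
          omega
      _ = 2 * k := by simp [mul_comm]
  have h2 := hlin κ' fun c => (j * (k + 1) + k) * (C + 2) + c
  omega

/-- The value of the linear form `s` at the vector `v`, up to the position `C + 2`. -/
noncomputable def lf (C : ℕ) (s : ℕ → ℝ) (v : List ℤ) : ℝ :=
  ∑ c ∈ range (C + 2), s c * (v.getD c 0 : ℝ)

theorem pol_eval (k : ℕ) (q : List Bool → List Bool) (f : List Bool → List ℤ) (z : List Bool)
    (r C : ℕ) (κ κ' h : ℕ → ℝ) :
    MvPolynomial.eval (fun i => ((F0 k q f z r C).getD i 0 : ℝ)) (pol k r C κ κ' h) =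
      ∑ j ∈ range (stages r k).length, h j *
        ((∏ t ∈ range k, lf C κ (V q f z r k ((stages r k).getD j []) t) ^ 2) *
          lf C κ' (V q f z r k ((stages r k).getD j []) k)) := by
  unfold pol lf
  rw [map_sum]
  refine Finset.sum_congr rfl fun j hj => ?_
  have hj' := Finset.mem_range.1 hj
  rw [map_mul, map_mul, map_prod, MvPolynomial.eval_C, map_sum]
  congr 2
  · refine Finset.prod_congr rfl fun t ht => ?_
    rw [map_pow, map_sum]
    congr 1
    refine Finset.sum_congr rfl fun c hc => ?_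
    rw [map_mul, MvPolynomial.eval_C, MvPolynomial.eval_X,
      F0_getD k q f z r C hj' (by have := Finset.mem_range.1 ht; omega) (Finset.mem_range.1 hc)]
  · refine Finset.sum_congr rfl fun c hc => ?_
    rw [map_mul, MvPolynomial.eval_C, MvPolynomial.eval_X,
      F0_getD k q f z r C hj' (by omega) (Finset.mem_range.1 hc)]

theorem lf_one (C : ℕ) (s : ℕ → ℝ) : lf C s [1] = s 0 := by
  unfold lf
  rw [Finset.sum_eq_single 0]
  · simp
  · intro c _ hc
    obtain ⟨c, rfl⟩ := Nat.exists_eq_succ_of_ne_zero hc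
    simp
  · simp

theorem lf_cons (C : ℕ) (s : ℕ → ℝ) (v : List ℤ) (hv : v.length ≤ C) :
    lf C s (0 :: 1 :: v) = ∑ c ∈ range v.length, s (c + 2) * (v.getD c 0 : ℝ) + s 1 := by
  unfold lf
  rw [Finset.sum_range_succ', Finset.sum_range_succ']
  simp only [List.getD_cons_succ, List.getD_cons_zero, Int.cast_zero, mul_zero, add_zero,
    Int.cast_one, mul_one, zero_add]
  congr 1
  symm
  refine Finset.sum_subset (Finset.range_subset_range.2 hv) fun c _ hc => ?_
  rw [Finset.mem_range, not_lt] at hc
  rw [List.getD_eq_default _ _ hc]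
  simp

end Pool.Agent.TH684.FN
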